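import Pool.Agent.Y138.RC.Gen

set_option autoImplicit false

open Pool.Agent.Y138.RC

namespace Pool.Agent.Results.MP_02e6ff_ag.EvenFunctionFields

/-- Rational points of smooth projective rationally connected surfaces need not be Zariski dense
over any rational function field `F(t_i : i ∈ σ)`, where `F` is any perfect field of
characteristic two (finite, algebraically closed, ...) and `σ` is any nonempty set of variables,
finite or infinite. More generally they need not be dense over the field of fractions of a
factorial domain of characteristic two which contains a nonsquare and whose unit group is finite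
modulo squares. -/
theorem result :
    (∀ (F : Type) [Field F] [PerfectField F] [CharP F 2] (σ : Type) [Nonempty σ],
      FailsOver (FractionRing (MvPolynomial σ F))) ∧
    ∀ (R : Type) [CommRing R] [IsDomain R] [UniqueFactorizationMonoid R] [CharP R 2]
      [Finite (Rˣ ⧸ (powMonoidHom 2 : Rˣ →* Rˣ).range)] (K : Type) [Field K] [Algebra R K]
      [IsFractionRing R K], (∃ τ : R, ¬ IsSquare τ) → FailsOver K :=
  ⟨fun F _ _ _ σ _ => fails_function_field F σ, fun R _ _ _ _ _ K _ _ _ h => fails_frac R K h⟩

end Pool.Agent.Results.MP_02e6ff_ag.EvenFunctionFields
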